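import Mathlib
import Pool.Agent.Q182.MKDefs
import Pool.Agent.Q182.MKTop

/-!
# No metrizable precompact group topology on the integers is Mackey
-/

namespace Pool.Agent.Results.MP_19adc1_gt.NoMackey

open Q182

/-- There is no metrizable precompact group topology on `ℤ` that is Mackey. -/
theorem result :
    ¬ ∃ τ : TopologicalSpace ℤ, @IsTopologicalAddGroup ℤ τ _ ∧
      @TopologicalSpace.MetrizableSpace ℤ τ ∧ IsPrecompact τ ∧ IsMackey τ := by
  rintro ⟨τ, -, hmet, hpre, hlqc, hM⟩
  obtain ⟨σ, hσ, -, hchars, hnot⟩ := MK.exists_compatible τ hlqc hmet hpre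
  exact hnot (hM σ hσ hchars)

end Pool.Agent.Results.MP_19adc1_gt.NoMackey
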